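import Pool.Agent.Lib.MP_95ac01_nt.Iface

/-!
# MP_95ac01_nt: module HENSEL
-/

set_option autoImplicit false

namespace Cub.H37

open Finset

theorem ev_congr_dvd (q : ℕ) (c : Mon → ℤ) (x y : Fin 4 → ℤ) (h : ∀ i, (q : ℤ) ∣ x i - y i) :
    (q : ℤ) ∣ ev c x - ev c y :=
  ev_congr_mod q c c x y (fun m => by rw [sub_self]; exact dvd_zero _) h

theorem pd_congr_dvd (q : ℕ) (c : Mon → ℤ) (j : Fin 4) (x y : Fin 4 → ℤ)
    (h : ∀ i, (q : ℤ) ∣ x i - y i) : (q : ℤ) ∣ pd c j x - pd c j y := by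
  have hxy : cx (ZMod q) x = cx (ZMod q) y := by
    funext i
    have h1 := (ZMod.intCast_eq_intCast_iff_dvd_sub (y i) (x i) q).2 (h i)
    exact h1.symm
  have h2 : ((pd c j y : ℤ) : ZMod q) = ((pd c j x : ℤ) : ZMod q) := by
    rw [← pd_cast, ← pd_cast, hxy]
  exact (ZMod.intCast_eq_intCast_iff_dvd_sub _ _ q).1 h2

/-- The one variable step. -/
theorem exists_root (p e K : ℕ) [hp : Fact p.Prime] (c : Mon → ℤ) (a : Fin 4 → ℤ) (j : Fin 4)
    (h1 : ¬ (p : ℤ) ^ (e + 1) ∣ pd c j a) (h2 : (p : ℤ) ^ (2 * e + 1) ∣ ev c a)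
    (hK : 1 ≤ K) (x : Fin 4 → ℤ) (hx : ∀ l, (p : ℤ) ^ (2 * e + 1) ∣ x l - a l) :
    ∃ t : ℤ, 0 ≤ t ∧ t < (p : ℤ) ^ K ∧ (p : ℤ) ∣ t - a j ∧
      (p : ℤ) ^ K ∣ ev c (Function.update x j t) := by
  set F : Polynomial ℤ_[p] := lin (cc ℤ_[p] c) j (cx ℤ_[p] x) with hF
  have hev : ∀ t : ℤ, F.eval (t : ℤ_[p]) = ((ev c (Function.update x j t) : ℤ) : ℤ_[p]) := by
    intro t
    rw [hF, lin_eval, ← ev_cast]
    congr 1
    funext l
    by_cases hl : l = j
    · subst hl; simp [cx]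
    · simp [cx, Function.update_of_ne hl]
  have hx' : ∀ l, ((p ^ (2 * e + 1) : ℕ) : ℤ) ∣ x l - a l := by
    intro l; push_cast; exact hx l
  have e1 : (p : ℤ) ^ (2 * e + 1) ∣ ev c x := by
    have := ev_congr_dvd _ c x a hx'
    push_cast at this
    have h3 := dvd_add this h2
    rwa [sub_add_cancel] at h3
  have e2 : ¬ (p : ℤ) ^ (e + 1) ∣ pd c j x := by
    intro h3
    have h4 := pd_congr_dvd _ c j x a hx'
    push_cast at h4
    have h5 : (p : ℤ) ^ (e + 1) ∣ (p : ℤ) ^ (2 * e + 1) := pow_dvd_pow _ (by omega)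
    have h6 := dvd_sub h3 (h5.trans h4)
    rw [sub_sub_cancel] at h6
    exact h1 h6
  have hFx : F.eval (x j : ℤ_[p]) = ((ev c x : ℤ) : ℤ_[p]) := by
    rw [hev, Function.update_eq_self]
  have hFd : F.derivative.eval (x j : ℤ_[p]) = ((pd c j x : ℤ) : ℤ_[p]) := by
    have h3 : (x j : ℤ_[p]) = cx ℤ_[p] x j := rfl
    rw [hF, h3, lin_deriv_self, pd_cast]
  have hp1 : (1 : ℝ) < p := by exact_mod_cast hp.out.one_lt
  have n1 : ‖F.eval (x j : ℤ_[p])‖ ≤ (p : ℝ) ^ (-((2 * e + 1 : ℕ) : ℤ)) := by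
    rw [hFx]
    exact PadicInt.norm_int_le_pow_iff_dvd.2 (by push_cast; exact e1)
  have n2 : (p : ℝ) ^ (-((e : ℕ) : ℤ)) ≤ ‖F.derivative.eval (x j : ℤ_[p])‖ := by
    rw [hFd]
    by_contra h3
    push Not at h3
    apply e2
    have h4 : ‖((pd c j x : ℤ) : ℤ_[p])‖ ≤ (p : ℝ) ^ (-((e + 1 : ℕ) : ℤ)) := by
      rw [PadicInt.norm_le_pow_iff_norm_lt_pow_add_one]
      have h5 : -((e + 1 : ℕ) : ℤ) + 1 = -((e : ℕ) : ℤ) := by push_cast; ring
      rw [h5]
      exact h3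
    have h5 := PadicInt.norm_int_le_pow_iff_dvd.1 h4
    push_cast at h5
    exact h5
  have hlt : ‖F.aeval (x j : ℤ_[p])‖ < ‖F.derivative.aeval (x j : ℤ_[p])‖ ^ 2 := by
    rw [Polynomial.coe_aeval_eq_eval]
    refine lt_of_le_of_lt n1 (lt_of_lt_of_le ?_ (pow_le_pow_left₀ (by positivity) n2 2))
    rw [← zpow_natCast, ← zpow_mul]
    refine zpow_lt_zpow_right₀ hp1 ?_
    push_cast
    linarith
  obtain ⟨z, hz, hz1, -, -⟩ := hensels_lemma hlt
  rw [Polynomial.coe_aeval_eq_eval] at hz hz1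
  have hz2 : ‖z - (x j : ℤ_[p])‖ < 1 := lt_of_lt_of_le hz1 (PadicInt.norm_le_one _)
  set t : ℕ := PadicInt.appr z K with ht
  have hzt : (p : ℤ_[p]) ^ K ∣ z - (t : ℤ_[p]) :=
    Ideal.mem_span_singleton.1 (PadicInt.appr_spec K z)
  refine ⟨t, Int.natCast_nonneg _, by exact_mod_cast PadicInt.appr_lt z K, ?_, ?_⟩
  · have h3 : (p : ℤ_[p]) ∣ z - (x j : ℤ_[p]) := (PadicInt.norm_lt_one_iff_dvd _).1 hz2
    have h4 : (p : ℤ_[p]) ∣ z - (t : ℤ_[p]) := (dvd_pow_self _ (by omega)).trans hzt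
    have h5 : (p : ℤ_[p]) ∣ (((t : ℤ) - x j : ℤ) : ℤ_[p]) := by
      have h6 := dvd_sub h3 h4
      have h7 : z - (x j : ℤ_[p]) - (z - (t : ℤ_[p])) = (((t : ℤ) - x j : ℤ) : ℤ_[p]) := by
        push_cast; ring
      rwa [h7] at h6
    have h6 : (p : ℤ) ∣ (t : ℤ) - x j :=
      (PadicInt.norm_int_lt_one_iff_dvd _).1 ((PadicInt.norm_lt_one_iff_dvd _).2 h5)
    have h7 : (p : ℤ) ∣ x j - a j := (dvd_pow_self _ (by omega)).trans (hx j)
    have h8 := dvd_add h6 h7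
    rwa [sub_add_sub_cancel] at h8
  · have h3 : (p : ℤ_[p]) ^ K ∣ F.eval (t : ℤ_[p]) := by
      have h4 := Polynomial.sub_dvd_eval_sub z (t : ℤ_[p]) F
      rw [hz, zero_sub, dvd_neg] at h4
      exact hzt.trans h4
    have h4 : F.eval (t : ℤ_[p]) = ((ev c (Function.update x j (t : ℤ)) : ℤ) : ℤ_[p]) := by
      rw [← hev]
      push_cast
      rfl
    rw [h4] at h3
    have h5 : ‖((ev c (Function.update x j (t : ℤ)) : ℤ) : ℤ_[p])‖ ≤ (p : ℝ) ^ (-(K : ℤ)) :=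
      (PadicInt.norm_le_pow_iff_mem_span_pow _ _).2 (Ideal.mem_span_singleton.2 h3)
    have h6 := PadicInt.norm_int_le_pow_iff_dvd.1 h5
    push_cast at h6
    exact h6

/-- Module HENSEL. -/
theorem hensel : HenselStatement := by
  classical
  intro p e K c hp hc hK
  have : Fact p.Prime := ⟨hp⟩
  obtain ⟨a, ⟨i, hi⟩, ⟨j, hj⟩, ha⟩ := hc
  set M : ℕ := 2 * e + 1 with hM
  have hp0 : 0 < p := hp.pos
  have hpM : (0 : ℤ) < (p : ℤ) ^ M := by positivity
  -- the choices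
  let xf : ({l : Fin 4 // l ≠ j} → Fin (p ^ (K - M))) → Fin 4 → ℤ := fun s l =>
    if h : l ≠ j then a l % (p : ℤ) ^ M + (p : ℤ) ^ M * ((s ⟨l, h⟩ : ℕ) : ℤ) else a j
  have hxf : ∀ s l, (p : ℤ) ^ M ∣ xf s l - a l := by
    intro s l
    by_cases h : l ≠ j
    · have e1 : xf s l = a l % (p : ℤ) ^ M + (p : ℤ) ^ M * ((s ⟨l, h⟩ : ℕ) : ℤ) := dif_pos h
      rw [e1]
      have e2 := Int.emod_add_mul_ediv (a l) ((p : ℤ) ^ M)
      refine ⟨((s ⟨l, h⟩ : ℕ) : ℤ) - a l / (p : ℤ) ^ M, ?_⟩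
      rw [mul_sub]
      linarith
    · have e1 : xf s l = a j := dif_neg h
      have e2 : l = j := by simpa using h
      rw [e1, e2, sub_self]
      exact dvd_zero _
  have hroot := fun s => exists_root p e K c a j hj ha (by omega) (xf s) (hxf s)
  choose tf ht0 ht1 ht2 ht3 using hroot
  let sf : ({l : Fin 4 // l ≠ j} → Fin (p ^ (K - M))) → Fin 4 → ℤ := fun s =>
    Function.update (xf s) j (tf s)
  have hmem : ∀ s, sf s ∈ solSet (p ^ K) c := by
    intro s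
    have hcong : ∀ l, (p : ℤ) ∣ sf s l - a l := by
      intro l
      by_cases h : l = j
      · subst h
        simpa [sf] using ht2 s
      · have : sf s l = xf s l := Function.update_of_ne h _ _
        rw [this]
        exact (dvd_pow_self _ (by omega)).trans (hxf s l)
    rw [solSet, mem_filter]
    refine ⟨?_, ?_, ?_⟩
    · rw [resid, Fintype.mem_piFinset]
      intro l
      rw [mem_Ico]
      push_cast
      by_cases h : l = j
      · subst h
        have : sf s l = tf s := Function.update_self _ _ _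
        rw [this]
        exact ⟨ht0 s, ht1 s⟩
      · have e0 : sf s l = xf s l := Function.update_of_ne h _ _
        have e1 : xf s l = a l % (p : ℤ) ^ M + (p : ℤ) ^ M * ((s ⟨l, h⟩ : ℕ) : ℤ) := dif_pos h
        rw [e0, e1]
        have e2 := Int.emod_nonneg (a l) hpM.ne'
        have e3 := Int.emod_lt_of_pos (a l) hpM
        have e4 : ((s ⟨l, h⟩ : ℕ) : ℤ) + 1 ≤ (p : ℤ) ^ (K - M) := by
          exact_mod_cast (s ⟨l, h⟩).2
        have e5 : (p : ℤ) ^ K = (p : ℤ) ^ M * (p : ℤ) ^ (K - M) := by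
          rw [← pow_add]; congr 1; omega
        refine ⟨by positivity, ?_⟩
        rw [e5]
        calc a l % (p : ℤ) ^ M + (p : ℤ) ^ M * ((s ⟨l, h⟩ : ℕ) : ℤ)
            < (p : ℤ) ^ M + (p : ℤ) ^ M * ((s ⟨l, h⟩ : ℕ) : ℤ) := by linarith
          _ = (p : ℤ) ^ M * (((s ⟨l, h⟩ : ℕ) : ℤ) + 1) := by ring
          _ ≤ _ := mul_le_mul_of_nonneg_left e4 hpM.le
    · have hnd : ¬ (p : ℤ) ∣ sf s i := by
        intro h
        have := dvd_sub h (hcong i)
        rw [sub_sub_cancel] at this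
        exact hi this
      have hcop : IsCoprime (sf s i) ((p : ℤ) ^ K) :=
        IsCoprime.pow_right ((Nat.prime_iff_prime_int.1 hp).coprime_iff_not_dvd.2 hnd).symm
      obtain ⟨u, v, huv⟩ := hcop
      refine ⟨Pi.single i u, ?_⟩
      have h1 : dt (Pi.single i u) (sf s) = u * sf s i := by
        unfold dt
        rw [Finset.sum_eq_single i]
        · rw [Pi.single_eq_same]
        · intro b _ hb
          rw [Pi.single_eq_of_ne hb, zero_mul]
        · intro h; exact absurd (Finset.mem_univ _) h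
      rw [h1]
      push_cast
      refine ⟨-v, ?_⟩
      linarith
    · push_cast
      exact ht3 s
  have hinj : Function.Injective sf := by
    intro s s' h
    funext l
    obtain ⟨l, hl⟩ := l
    have h1 : sf s l = sf s' l := by rw [h]
    have e0 : ∀ s, sf s l = a l % (p : ℤ) ^ M + (p : ℤ) ^ M * ((s ⟨l, hl⟩ : ℕ) : ℤ) := by
      intro s
      have e0 : sf s l = xf s l := Function.update_of_ne hl _ _
      have e1 : xf s l = a l % (p : ℤ) ^ M + (p : ℤ) ^ M * ((s ⟨l, hl⟩ : ℕ) : ℤ) := dif_pos hl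
      rw [e0, e1]
    rw [e0, e0] at h1
    have h2 := mul_left_cancel₀ hpM.ne' (add_left_cancel h1)
    exact Fin.ext (by exact_mod_cast h2)
  have hcard : (p ^ (K - M)) ^ 3 ≤ sol (p ^ K) c := by
    have h1 := Finset.card_le_card_of_injOn sf (s := Finset.univ) (t := solSet (p ^ K) c)
      (fun s _ => hmem s) (hinj.injOn)
    have h2 : (Finset.univ : Finset ({l : Fin 4 // l ≠ j} → Fin (p ^ (K - M)))).card =
        (p ^ (K - M)) ^ 3 := by
      rw [Finset.card_univ, Fintype.card_fun, Fintype.card_fin]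
      congr 1
      rw [Fintype.card_subtype_compl, Fintype.card_fin, Fintype.card_subtype_eq]
    rw [h2] at h1
    exact h1
  calc p ^ (3 * K) = p ^ (3 * M) * (p ^ (K - M)) ^ 3 := by
        rw [← pow_mul, ← pow_add]; congr 1; omega
    _ ≤ p ^ (3 * M) * sol (p ^ K) c := Nat.mul_le_mul_left _ hcard

end Cub.H37
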