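import Pool.Agent.Lib.MP_95ac01_nt.Iface

/-!
# MP_95ac01_nt: module SPAN2
-/

set_option autoImplicit false

namespace Cub.H37

open Finset

section dtl
variable {R : Type*} [CommRing R]

theorem dt_add_left (u v x : Fin 4 → R) : dt (u + v) x = dt u x + dt v x := by
  simp [dt, add_mul, Finset.sum_add_distrib]

theorem dt_smul_left (t : R) (u x : Fin 4 → R) : dt (t • u) x = t * dt u x := by
  simp [dt, Finset.mul_sum, mul_assoc]

theorem dt_sub_left (u v x : Fin 4 → R) : dt (u - v) x = dt u x - dt v x := by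
  simp [dt, sub_mul, Finset.sum_sub_distrib]

theorem dt_single (i : Fin 4) (t : R) (x : Fin 4 → R) : dt (Pi.single i t) x = t * x i := by
  unfold dt
  rw [Finset.sum_eq_single i]
  · rw [Pi.single_eq_same]
  · intro b _ hb
    rw [Pi.single_eq_of_ne hb, zero_mul]
  · intro h; exact absurd (Finset.mem_univ _) h

theorem p3_cast (α β γ : Fin 4 → ℤ) :
    cc ℝ (p3 α β γ) = p3 (cx ℝ α) (cx ℝ β) (cx ℝ γ) := by
  funext m
  simp only [cc, p3, cx]
  push_cast
  rfl

end dtl

/-- A functional vanishing on the products `α β γ`, `α(x) = 0`, `β(y) = 0`, vanishes on every form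
vanishing at `x` and `y`. -/
theorem functional_zero (X Y : Fin 4 → ℝ) (lam mu : Fin 4 → ℝ) (h1 : dt lam X = 1)
    (h2 : dt lam Y = 0) (h3 : dt mu X = 0) (h4 : dt mu Y = 1)
    (φ : (Mon → ℝ) →ₗ[ℝ] ℝ)
    (hφ : ∀ α β γ, dt α X = 0 → dt β Y = 0 → φ (p3 α β γ) = 0) (g : Mon → ℝ)
    (hX : ev g X = 0) (hY : ev g Y = 0) : φ g = 0 := by
  -- symmetric trilinear form
  have sw12 : ∀ α β γ, φ (p3 α β γ) = φ (p3 β α γ) := fun α β γ => by rw [p3_swap12]
  have sw23 : ∀ α β γ, φ (p3 α β γ) = φ (p3 α γ β) := fun α β γ => by rw [p3_swap23]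
  have add1 : ∀ α α' β γ, φ (p3 (α + α') β γ) = φ (p3 α β γ) + φ (p3 α' β γ) :=
    fun α α' β γ => by rw [p3_add_left, map_add]
  have smul1 : ∀ (t : ℝ) α β γ, φ (p3 (t • α) β γ) = t * φ (p3 α β γ) :=
    fun t α β γ => by rw [p3_smul_left, map_smul, smul_eq_mul]
  -- decomposition
  have dec : ∀ α : Fin 4 → ℝ, ∃ ρ, dt ρ X = 0 ∧ dt ρ Y = 0 ∧
      α = (dt α X) • lam + (dt α Y) • mu + ρ := by
    intro α
    refine ⟨α - (dt α X) • lam - (dt α Y) • mu, ?_, ?_, ?_⟩
    · rw [dt_sub_left, dt_sub_left, dt_smul_left, dt_smul_left, h1, h3]; ring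
    · rw [dt_sub_left, dt_sub_left, dt_smul_left, dt_smul_left, h2, h4]; ring
    · abel
  have z1 : ∀ ρ β γ, dt ρ X = 0 → dt ρ Y = 0 → φ (p3 ρ β γ) = 0 := by
    intro ρ β γ r1 r2
    obtain ⟨σ, s1, s2, hs⟩ := dec β
    rw [sw12, hs, add1, add1, smul1, smul1, sw12 lam, hφ ρ lam γ r1 h2, hφ mu ρ γ h3 r2,
      hφ σ ρ γ s1 r2]
    ring
  have z2 : ∀ γ, φ (p3 mu lam γ) = 0 := fun γ => hφ mu lam γ h3 h2
  have red : ∀ α β γ, φ (p3 α β γ) = dt α X * φ (p3 lam β γ) + dt α Y * φ (p3 mu β γ) := by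
    intro α β γ
    obtain ⟨ρ, r1, r2, hr⟩ := dec α
    have h : φ (p3 α β γ) = φ (p3 ((dt α X) • lam + (dt α Y) • mu + ρ) β γ) :=
      congrArg (fun a => φ (p3 a β γ)) hr
    rw [h, add1, add1, smul1, smul1, z1 ρ β γ r1 r2, add_zero]
  have zz2 : ∀ γ, φ (p3 lam mu γ) = 0 := fun γ => by rw [sw12]; exact z2 γ
  have main : ∀ α β γ, φ (p3 α β γ) = dt α X * dt β X * dt γ X * φ (p3 lam lam lam) +
      dt α Y * dt β Y * dt γ Y * φ (p3 mu mu mu) := by
    intro α β γ
    have e1 : φ (p3 lam lam mu) = 0 := by rw [sw23]; exact zz2 lam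
    have e2 : φ (p3 mu mu lam) = 0 := by rw [sw23]; exact z2 mu
    rw [red α β γ, sw12 lam β γ, red β lam γ, sw12 mu β γ, red β mu γ, z2, zz2,
      sw23 lam lam γ, sw12 lam γ lam, red γ lam lam, sw23 mu mu γ, sw12 mu γ mu, red γ mu mu,
      sw12 mu lam lam, sw23 lam mu lam, e1, sw12 lam mu mu, sw23 mu lam mu, e2]
    ring
  have hm : ∀ m : Mon, φ (Pi.single m 1) =
      mv m X * φ (p3 lam lam lam) + mv m Y * φ (p3 mu mu mu) := by
    intro m
    obtain ⟨i, j, k, rfl⟩ := exists_mon3 m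
    rw [← p3_single, main, dt_single, dt_single, dt_single, dt_single, dt_single, dt_single,
      mv_mon3, mv_mon3]
    ring
  have hg : φ g = ∑ m, g m * φ (Pi.single m 1) := by
    conv_lhs => rw [form_eq_sum g]
    rw [map_sum]
    exact Finset.sum_congr rfl fun m _ => by rw [map_smul, smul_eq_mul]
  have hg2 : φ g = ev g X * φ (p3 lam lam lam) + ev g Y * φ (p3 mu mu mu) := by
    rw [hg, ev, ev, Finset.sum_mul, Finset.sum_mul, ← Finset.sum_add_distrib]
    refine Finset.sum_congr rfl fun m _ => ?_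
    rw [hm]
    ring
  rw [hg2, hX, hY]
  ring

theorem exists_dual_basis (X Y : Fin 4 → ℝ) (i j : Fin 4) (h : mn X Y i j ≠ 0) :
    ∃ lam mu : Fin 4 → ℝ, dt lam X = 1 ∧ dt lam Y = 0 ∧ dt mu X = 0 ∧ dt mu Y = 1 := by
  refine ⟨(mn X Y i j)⁻¹ • (Pi.single i (Y j) - Pi.single j (Y i)),
    (mn X Y i j)⁻¹ • (Pi.single j (X i) - Pi.single i (X j)), ?_, ?_, ?_, ?_⟩
  · rw [dt_smul_left, dt_sub_left, dt_single, dt_single]
    have e : Y j * X i - Y i * X j = mn X Y i j := by unfold mn; ring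
    rw [e, inv_mul_cancel₀ h]
  · rw [dt_smul_left, dt_sub_left, dt_single, dt_single]
    ring
  · rw [dt_smul_left, dt_sub_left, dt_single, dt_single]
    ring
  · rw [dt_smul_left, dt_sub_left, dt_single, dt_single]
    have e : X i * Y j - X j * Y i = mn X Y i j := by unfold mn; ring
    rw [e, inv_mul_cancel₀ h]

/-- Extraction of a basis from a finite family of integer vectors. -/
theorem extract {ι : Type} [Finite ι] (w : ι → Mon → ℤ) :
    ∃ (r : ℕ) (v : Fin r → Mon → ℤ), r ≤ 20 ∧ LinearIndependent ℝ (fun k => cc ℝ (v k)) ∧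
      (∀ k, ∃ i, v k = w i) ∧
      Submodule.span ℝ (Set.range fun k => cc ℝ (v k)) =
        Submodule.span ℝ (Set.range fun i => cc ℝ (w i)) := by
  obtain ⟨κ, a, ha, hs, hli⟩ := exists_linearIndependent' ℝ (fun i => cc ℝ (w i))
  have : Finite κ := Finite.of_injective a ha
  obtain ⟨r, ⟨e⟩⟩ := Finite.exists_equiv_fin κ
  have hli2 : LinearIndependent ℝ (fun k : Fin r => cc ℝ (w (a (e.symm k)))) :=
    hli.comp e.symm e.symm.injective
  refine ⟨r, fun k => w (a (e.symm k)), ?_, hli2, fun k => ⟨_, rfl⟩, ?_⟩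
  · have h := hli2.fintype_card_le_finrank
    rw [Fintype.card_fin, Module.finrank_fintype_fun_eq_card, card_mon] at h
    exact h
  · rw [← hs]
    congr 1
    ext z
    constructor
    · rintro ⟨k, rfl⟩
      exact ⟨e.symm k, rfl⟩
    · rintro ⟨k, rfl⟩
      refine ⟨e k, ?_⟩
      simp

/-- Module SPAN2. -/
theorem span2 (hlin : LinStatement) : Span2Statement := by
  intro A x y hx hy hwd
  obtain ⟨l, hl1, hl2, hl3⟩ := hx
  obtain ⟨l', hl1', hl2', hl3'⟩ := hy
  obtain ⟨i, j, hij⟩ := (wd_pos_iff x y).1 hwd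
  have hx0 : x ≠ 0 := by
    rintro rfl
    apply hij
    simp [mn]
  have hy0 : y ≠ 0 := by
    rintro rfl
    apply hij
    simp [mn]
  have hspanx := (hlin l x hl1 hl2 hx0).1
  have hspany := (hlin l' y hl1' hl2' hy0).1
  set w : (Fin 3 × Fin 3 × Fin 4) → Mon → ℤ := fun s =>
    p3 (l s.1) (l' s.2.1) (Pi.single s.2.2 1) with hw
  obtain ⟨r, v, hr, hli, hv, hsp⟩ := extract w
  refine ⟨r, v, hr, hli, ?_, ?_, ?_⟩
  · intro k
    obtain ⟨s, hs⟩ := hv k
    rw [hs, hw]
    dsimp only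
    rw [ev_p3, ev_p3, hl2, hl2']
    constructor <;> ring
  · intro k m
    obtain ⟨s, hs⟩ := hv k
    rw [hs, hw]
    dsimp only
    have h := abs_p3_le (l s.1) (l' s.2.1) (Pi.single s.2.2 1) A A 1 (hl3 _) (hl3' _) (by
      intro i
      by_cases h : i = s.2.2
      · subst h; simp
      · rw [Pi.single_eq_of_ne h]; simp) m
    refine h.trans (le_of_eq ?_)
    ring
  · intro g hgX hgY
    rw [hsp]
    have hij' : mn (cx ℝ x) (cx ℝ y) i j ≠ 0 := by
      rw [mn_cast]
      exact_mod_cast hij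
    obtain ⟨lam, mu, m1, m2, m3, m4⟩ := exists_dual_basis _ _ i j hij'
    by_contra hg
    obtain ⟨φ, hφ1, hφ2⟩ := Submodule.exists_le_ker_of_notMem hg
    apply hφ1
    refine functional_zero _ _ lam mu m1 m2 m3 m4 φ ?_ g hgX hgY
    -- step 0
    have s0 : ∀ a b k, φ (p3 (cx ℝ (l a)) (cx ℝ (l' b)) (Pi.single k 1)) = 0 := by
      intro a b k
      have h1 : cc ℝ (w (a, b, k)) ∈ Submodule.span ℝ (Set.range fun i => cc ℝ (w i)) :=
        Submodule.subset_span ⟨(a, b, k), rfl⟩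
      have h2 := hφ2 h1
      rw [LinearMap.mem_ker, hw] at h2
      dsimp only at h2
      rw [p3_cast] at h2
      have h3 : cx ℝ (Pi.single k (1 : ℤ)) = Pi.single k (1 : ℝ) := by
        funext i
        by_cases h : i = k
        · subst h; simp [cx]
        · simp [cx, Pi.single_eq_of_ne h]
      rwa [h3] at h2
    have lin1 : ∀ β γ, ∃ L : (Fin 4 → ℝ) →ₗ[ℝ] ℝ, ∀ α, L α = φ (p3 α β γ) := by
      intro β γ
      refine ⟨{ toFun := fun α => φ (p3 α β γ), map_add' := ?_, map_smul' := ?_ }, fun α => rfl⟩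
      · intro α α'; rw [p3_add_left, map_add]
      · intro t α; rw [p3_smul_left, map_smul]; rfl
    have s1 : ∀ α b k, dt α (cx ℝ x) = 0 → φ (p3 α (cx ℝ (l' b)) (Pi.single k 1)) = 0 := by
      intro α b k hα
      obtain ⟨L, hL⟩ := lin1 (cx ℝ (l' b)) (Pi.single k 1)
      have hle : Submodule.span ℝ (Set.range fun a => cx ℝ (l a)) ≤ LinearMap.ker L := by
        refine Submodule.span_le.2 ?_
        rintro _ ⟨a, rfl⟩
        change L (cx ℝ (l a)) = 0
        rw [hL]
        exact s0 a b k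
      have h := hle (hspanx α hα)
      rw [LinearMap.mem_ker, hL] at h
      exact h
    have s2 : ∀ α β k, dt α (cx ℝ x) = 0 → dt β (cx ℝ y) = 0 →
        φ (p3 α β (Pi.single k 1)) = 0 := by
      intro α β k hα hβ
      obtain ⟨L, hL⟩ := lin1 α (Pi.single k 1)
      have hle : Submodule.span ℝ (Set.range fun a => cx ℝ (l' a)) ≤ LinearMap.ker L := by
        refine Submodule.span_le.2 ?_
        rintro _ ⟨a, rfl⟩
        change L (cx ℝ (l' a)) = 0
        rw [hL, p3_swap12]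
        exact s1 α a k hα
      have h := hle (hspany β hβ)
      rw [LinearMap.mem_ker, hL, p3_swap12] at h
      exact h
    intro α β γ hα hβ
    obtain ⟨L, hL⟩ := lin1 α β
    have hL0 : L = 0 := by
      refine LinearMap.pi_ext fun k t => ?_
      have h1 : (Pi.single k t : Fin 4 → ℝ) = t • Pi.single k (1 : ℝ) := by
        funext i
        by_cases h : i = k
        · subst h; simp
        · simp [Pi.single_eq_of_ne h]
      rw [h1, map_smul, hL, p3_swap12, p3_swap23, s2 α β k hα hβ]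
      simp
    have h := hL γ
    rw [hL0, LinearMap.zero_apply, p3_swap12, p3_swap23] at h
    exact h.symm

end Cub.H37
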